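import Mathlib
import Pool.Agent.Sx28.CS.Baire

set_option autoImplicit false
open scoped NNReal InnerProductSpace Topology
open Pool.Agent.Sx28.CS

namespace Pool.Agent.Results.MP_eb8260_an.ContractionBaire

/-- For every separable infinite-dimensional complex Hilbert space `H` and every dense sequence
`x` of nonzero vectors of `H` (indexed from `0`), the formula of the problem defines a metric `d`
on the set of all contraction `C_0`-semigroups on `H`, and the metric space so obtained is a
Baire space. -/
theorem result {H : Type*} [NormedAddCommGroup H] [InnerProductSpace ℂ H] [CompleteSpace H]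
    [TopologicalSpace.SeparableSpace H] (hH : ¬ FiniteDimensional ℂ H)
    (x : ℕ → H) (hx : ∀ j, x j ≠ 0) (hd : Dense (Set.range x)) :
    ∃ m : MetricSpace (ContractionSemigroup H),
      (∀ T S : ContractionSemigroup H, m.dist T S =
        ∑' p : ℕ × ℕ × ℕ, (1 / 2 : ℝ) ^ ((p.1 + 1) + (p.2.1 + 1) + (p.2.2 + 1)) *
          ((⨆ t : Set.Icc (0 : ℝ≥0) ((p.1 : ℝ≥0) + 1),
            ‖⟪(T.op t - S.op t) (x p.2.1), x p.2.2⟫_ℂ‖) / (‖x p.2.1‖ * ‖x p.2.2‖))) ∧
      @BaireSpace (ContractionSemigroup H)
        m.toPseudoMetricSpace.toUniformSpace.toTopologicalSpace :=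
  ⟨metricSpace x hx hd, fun _ _ => rfl, baire hH hx hd⟩

end Pool.Agent.Results.MP_eb8260_an.ContractionBaire
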